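import Pool.Agent.H24.D2.Vis
import Pool.Agent.H31.W.H62.OWN.Jvc
import Pool.Agent.H3.W.Nlp
import Pool.Agent.H31.W1.H2.GEN.ChT
import Pool.Agent.H31.W1.H80.GEN.Chn

/-!
# Visible labels are not constant along the lines

`VPol`: a visible polynomial label of the coordinate `c i` over a chain of labels (a function of
the exact point), of degree at most `K`, through the points up to `2 ^ (-p)`, with natural size.
`vis_ev`: in a class with the thresholds of the chain labels, an event on which a visible label,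
with a precision above the threshold of the balls, is near a function of the line and of the window
is small. `vis_cls`: the visible labels of two independent samples of the same line and window are
not near, with probability near one.
-/

set_option autoImplicit false

namespace Pool.W.VIS24

open Pool.VIS24

open Finset Real MvPolynomial
open Pool.Agent.H49.Ent Pool.Agent.H32.Dense Pool.STK Pool.KA Pool.KSAT Pool.K2S Pool.PB Pool.S6C
open Pool.GEN Pool.CHT
open Pool.LBT (ThrOf)
open Pool.KM7 (P2)
open Pool.JVE (pe_sum pair_sel chN_false)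

variable {m : ℕ}


variable {θ : ℝ} {S : Pool.PB.PCl m} {P : List (Fin m) × Fin m → ℝ → ℝ → ℝ}

/-- The events of a class with thresholds have positive mass. -/
theorem pos_thr (hP : Pool.LBT.ThrOf (Pool.W.CHT.chsys m θ) S P) (c : ℕ → Fin m) (i : ℕ) (a w : ℚ) (e h : ℝ)
    (hw : 0 ≤ w) (hwa : w ≤ a) (ha : a ≤ 1) (he : e < θ * w) (hh : 0 < h)
    (h1 : Pool.CHT.bet P c i a w + h ≤ 1) : Pool.S6C.Bas S (fun _ F A => 0 < Pool.K2S.Pe F.p A) := by
  obtain ⟨τ, hτ, J₁, hno⟩ := Pool.W.CHT.no_unif hP c i (fun _ => 0) a w e h hw hwa ha he hh h1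
  refine ⟨τ, hτ, J₁, fun J hJ F A hA => ?_⟩
  by_contra hcon
  have h0 : Pool.K2S.Pe F.p A = 0 := le_antisymm (not_lt.1 hcon) (Pool.K2S.Pe_nonneg F.isLaw A)
  have hA' : S.St (τ + 0) J F (fun _ => False) :=
    S.res le_rfl hA (fun ω hω => hω.elim) (by
      rw [h0, mul_zero]
      exact Pool.K2S.Pe_nonneg F.isLaw _)
  rw [add_zero] at hA'
  refine hno J hJ F _ hA' 0 0 0 (fun _ => J) le_rfl (Nat.zero_le _) (Nat.zero_le _)
    (Nat.zero_le _) (fun _ _ => le_rfl) ?_ (Pool.W.JVE.chN_false F _ _ _ _ _ _ _)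
  have h2 : ⌊(Pool.CHT.bet P c i a w + h) * J⌋₊ ≤ J := by
    refine Nat.floor_le_of_le ?_
    have hJ0 : (0 : ℝ) ≤ J := Nat.cast_nonneg J
    nlinarith only [h1, hJ0]
  show _ + 0 ≤ J + _
  omega


end Pool.W.VIS24

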